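import Pool.Agent.R433.GE.Stm

set_option autoImplicit false

namespace Pool.Agent.R983.GE

open Pool.Agent.R433.GE
open scoped TensorProduct BigOperators
open MulOpposite Finset

noncomputable section

/-- `S_KL` for an arbitrary finite index type -/
lemma BB_KL (hK : S_KL) (K : Type) [Field K] (n : ℕ) (ι : Type) [Fintype ι] [DecidableEq ι]
    (C : Matrix ι ι (R K n)) (u : ι → R K n)
    (h : ∀ (E : Type) [Field E] [Algebra K E] (β : Type) [Fintype β] [DecidableEq β]
      (ρ : R K n →ₐ[K] Matrix β β E), ∃ k : ℕ, ∀ i, ρ (((C ^ k).mulVec u) i) = 0) :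
    (C ^ (Fintype.card ι)).mulVec u = 0 := by
  set e : ι ≃ Fin (Fintype.card ι) := Fintype.equivFin ι with he
  set C' : Matrix (Fin (Fintype.card ι)) (Fin (Fintype.card ι)) (R K n) :=
    fun i j => C (e.symm i) (e.symm j) with hC'
  set u' : Fin (Fintype.card ι) → R K n := fun i => u (e.symm i) with hu'
  have key : ∀ k : ℕ, (C' ^ k).mulVec u' = fun i => ((C ^ k).mulVec u) (e.symm i) := by
    intro k
    induction k with
    | zero => simp [hu']
    | succ k ih =>
      rw [pow_succ', ← Matrix.mulVec_mulVec, ih, pow_succ', ← Matrix.mulVec_mulVec]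
      funext i
      simp only [Matrix.mulVec, dotProduct, hC']
      exact Equiv.sum_comp e.symm (fun j => C (e.symm i) j * ∑ x, (C ^ k) j x * u x)
  have := hK K n (Fintype.card ι) C' u' (by
    intro E _ _ β _ _ ρ
    obtain ⟨k, hk⟩ := h E β ρ
    refine ⟨k, fun i => ?_⟩
    rw [key]
    exact hk _)
  rw [key] at this
  funext i
  have h2 := congrFun this (e i)
  simpa using h2

/-- matrices of polynomials as power series of matrices -/
def toPS (S ι : Type) [Ring S] [Fintype ι] [DecidableEq ι] :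
    Matrix ι ι (Polynomial S) →+* PowerSeries (Matrix ι ι S) where
  toFun W := PowerSeries.mk fun k => Matrix.of fun i j => (W i j).coeff k
  map_one' := by
    ext k i j
    rw [PowerSeries.coeff_mk, PowerSeries.coeff_one, Matrix.of_apply, Matrix.one_apply]
    by_cases hij : i = j <;> by_cases hk : k = 0
    · subst hij; simp [hk]
    · simp [hij, hk, Polynomial.coeff_one]
    · simp [hij, hk]
    · simp [hij, hk]
  map_mul' W W' := by
    ext k i j
    rw [PowerSeries.coeff_mk, PowerSeries.coeff_mul, Matrix.of_apply, Matrix.mul_apply,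
      Polynomial.finsetSum_coeff, Matrix.sum_apply]
    simp only [PowerSeries.coeff_mk, Polynomial.coeff_mul, Matrix.mul_apply, Matrix.of_apply]
    rw [Finset.sum_comm]
  map_zero' := by
    ext k i j
    simp
  map_add' W W' := by
    ext k i j
    simp

lemma toPS_coeff {S ι : Type} [Ring S] [Fintype ι] [DecidableEq ι]
    (W : Matrix ι ι (Polynomial S)) (k : ℕ) (i j : ι) :
    (PowerSeries.coeff k (toPS S ι W)) i j = (W i j).coeff k := by
  show (PowerSeries.coeff k (PowerSeries.mk fun k => Matrix.of fun i j => (W i j).coeff k)) i j = _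
  rw [PowerSeries.coeff_mk, Matrix.of_apply]

variable {K : Type} [Field K] {n : ℕ}

/-- the ring homomorphism `M_n(R) → M_{n β}(E)` -/
def Phi {E β : Type} [Field E] [Algebra K E] [Fintype β] [DecidableEq β]
    (ρ : R K n →ₐ[K] Matrix β β E) :
    Matrix (Fin n) (Fin n) (R K n) →+* Matrix (Fin n × β) (Fin n × β) E :=
  (Matrix.compRingEquiv (Fin n) β E : _ →+* _).comp (RingHom.mapMatrix (ρ : R K n →+* Matrix β β E))

lemma Phi_apply {E β : Type} [Field E] [Algebra K E] [Fintype β] [DecidableEq β]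
    (ρ : R K n →ₐ[K] Matrix β β E) (M : Matrix (Fin n) (Fin n) (R K n)) (p q : Fin n × β) :
    Phi ρ M p q = ρ (M p.1 q.1) p.2 q.2 := rfl

/-- the ring homomorphism `M_n(R) → M_{n β}(E[X])` -/
def Psi {E β : Type} [Field E] [Algebra K E] [Fintype β] [DecidableEq β]
    (s : R K n →ₐ[K] Polynomial (R K n)) (ρ : R K n →ₐ[K] Matrix β β E) :
    Matrix (Fin n) (Fin n) (R K n) →+* Matrix (Fin n × β) (Fin n × β) (Polynomial E) :=
  (Matrix.compRingEquiv (Fin n) β (Polynomial E) : _ →+* _).comp (RingHom.mapMatrix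
    (((matPolyEquiv (n := β) (R := E)).symm : (Polynomial (Matrix β β E)) →+* Matrix β β (Polynomial E)).comp
      ((Polynomial.mapRingHom (ρ : R K n →+* Matrix β β E)).comp
        (s : R K n →+* Polynomial (R K n)))))

lemma Psi_coeff {E β : Type} [Field E] [Algebra K E] [Fintype β] [DecidableEq β]
    (s : R K n →ₐ[K] Polynomial (R K n)) (ρ : R K n →ₐ[K] Matrix β β E)
    (M : Matrix (Fin n) (Fin n) (R K n)) (p q : Fin n × β) (k : ℕ) :
    (Psi s ρ M p q).coeff k = ρ ((s (M p.1 q.1)).coeff k) p.2 q.2 := by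
  show ((matPolyEquiv.symm ((s (M p.1 q.1)).map (ρ : R K n →+* Matrix β β E))) p.2 q.2).coeff k = _
  rw [matPolyEquiv_symm_apply_coeff, Polynomial.coeff_map]
  rfl

/-- a unit power series `P` over matrices with `P_k = 0` for `k > d`, whose inverse is killed
eventually by all representations, has a polynomial inverse -/
lemma BB_main (hK : S_KL) (P H : PowerSeries (Matrix (Fin n) (Fin n) (R K n))) (d : ℕ)
    (hd : ∀ k, d < k → PowerSeries.coeff k P = 0) (hPH : P * H = 1) (hHP : H * P = 1)
    (hρ : ∀ (E : Type) [Field E] [Algebra K E] (β : Type) [Fintype β] [DecidableEq β]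
      (ρ : R K n →ₐ[K] Matrix β β E), ∃ k0 : ℕ, ∀ k, k0 ≤ k → ∀ i j,
      ρ ((PowerSeries.coeff k H) i j) = 0) :
    ∃ m : ℕ, ∀ k, m ≤ k → PowerSeries.coeff k H = 0 := by
  set c : ℕ → Matrix (Fin n) (Fin n) (R K n) := fun k => PowerSeries.coeff k P with hc
  set g : ℕ → Matrix (Fin n) (Fin n) (R K n) := fun k => PowerSeries.coeff k H with hg
  have hL : g 0 * c 0 = 1 := by
    have := congrArg (PowerSeries.coeff 0) hHP
    simpa [PowerSeries.coeff_mul, hc, hg] using this
  -- the recursion
  have hrec : ∀ k, g (k + (d + 1)) = ∑ a ∈ range (d + 1), (-(g 0 * c (d + 1 - a))) * g (k + a) := by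
    intro k
    have h1 : ∑ b ∈ range (k + (d + 1) + 1), c (k + (d + 1) - b) * g b = 0 := by
      have := congrArg (PowerSeries.coeff (k + (d + 1))) hPH
      rw [PowerSeries.coeff_mul, PowerSeries.coeff_one, if_neg (by omega),
        ← Finset.Nat.sum_antidiagonal_swap,
        Finset.Nat.sum_antidiagonal_eq_sum_range_succ_mk] at this
      simpa [hc, hg] using this
    rw [show k + (d + 1) + 1 = k + (d + 1 + 1) by ring, Finset.sum_range_add] at h1
    have h2 : ∑ b ∈ range k, c (k + (d + 1) - b) * g b = 0 := by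
      refine Finset.sum_eq_zero fun b hb => ?_
      rw [Finset.mem_range] at hb
      rw [show c (k + (d + 1) - b) = 0 from hd _ (by omega), zero_mul]
    rw [h2, zero_add, Finset.sum_range_succ] at h1
    have h3 : ∀ a, c (k + (d + 1) - (k + a)) = c (d + 1 - a) := by
      intro a; congr 1; omega
    simp only [h3, Nat.sub_self] at h1
    have h4 : c 0 * g (k + (d + 1)) = - ∑ a ∈ range (d + 1), c (d + 1 - a) * g (k + a) := by
      rw [eq_neg_iff_add_eq_zero, add_comm]; exact h1
    calc g (k + (d + 1)) = g 0 * (c 0 * g (k + (d + 1))) := by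
          rw [← mul_assoc, hL, one_mul]
      _ = _ := by
          rw [h4, Matrix.mul_neg, Finset.mul_sum, ← Finset.sum_neg_distrib]
          refine Finset.sum_congr rfl fun a _ => ?_
          rw [Matrix.neg_mul, mul_assoc]
  -- the companion matrix
  set C : Matrix (Fin (d + 1) × Fin n) (Fin (d + 1) × Fin n) (R K n) := fun p q =>
    if p.1.val + 1 < d + 1 then (if q.1.val = p.1.val + 1 ∧ p.2 = q.2 then 1 else 0)
    else (-(g 0 * c (d + 1 - q.1.val))) p.2 q.2 with hC
  have hstep : ∀ (b : Fin n) (k : ℕ),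
      C.mulVec (fun p => g (k + p.1.val) p.2 b) = fun p => g (k + 1 + p.1.val) p.2 b := by
    intro b k
    funext p
    obtain ⟨a, i⟩ := p
    rw [Matrix.mulVec, dotProduct]
    by_cases ha : a.val + 1 < d + 1
    · rw [Finset.sum_eq_single (⟨⟨a.val + 1, ha⟩, i⟩ : Fin (d + 1) × Fin n)]
      · simp only [hC, ha, if_true, and_self, one_mul]
        rw [show k + (a.val + 1) = k + 1 + a.val by omega]
      · rintro ⟨a', j⟩ _ hne
        simp only [hC, ha, if_true]
        rw [if_neg, zero_mul]
        rintro ⟨h1, h2⟩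
        apply hne
        ext <;> simp_all
      · intro h
        exact absurd (Finset.mem_univ _) h
    · have ha' : a.val = d := by have := a.2; omega
      have h5 : g (k + 1 + a.val) = g (k + (d + 1)) := by congr 1; omega
      simp only [h5]
      rw [hrec k, Matrix.sum_apply, ← Fin.sum_univ_eq_sum_range
        (fun a => ((-(g 0 * c (d + 1 - a))) * g (k + a)) i b), Fintype.sum_prod_type]
      refine Finset.sum_congr rfl fun a' _ => ?_
      rw [Matrix.mul_apply]
      refine Finset.sum_congr rfl fun j _ => ?_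
      simp only [hC, ha, if_false]
  have hpow : ∀ (b : Fin n) (k : ℕ),
      (C ^ k).mulVec (fun p => g (0 + p.1.val) p.2 b) = fun p => g (k + p.1.val) p.2 b := by
    intro b k
    induction k with
    | zero => rw [pow_zero, Matrix.one_mulVec]
    | succ k ih => rw [pow_succ', ← Matrix.mulVec_mulVec, ih, hstep]
  refine ⟨Fintype.card (Fin (d + 1) × Fin n), fun k hk => ?_⟩
  ext i b
  have h6 := BB_KL hK K n (Fin (d + 1) × Fin n) C (fun p => g (0 + p.1.val) p.2 b) (by
    intro E _ _ β _ _ ρ
    obtain ⟨k0, hk0⟩ := hρ E β ρ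
    refine ⟨k0, fun p => ?_⟩
    rw [hpow]
    exact hk0 _ (by omega) _ _)
  have h7 : (C ^ k).mulVec (fun p => g (0 + p.1.val) p.2 b) = 0 := by
    obtain ⟨r, rfl⟩ := Nat.exists_eq_add_of_le' hk
    rw [pow_add, ← Matrix.mulVec_mulVec, h6, Matrix.mulVec_zero]
  rw [hpow] at h7
  have h8 := congrFun h7 (⟨0, i⟩ : Fin (d + 1) × Fin n)
  simpa using h8

/-- summing up coefficients: a polynomial with an inverse -/
lemma BB_sum (P H : PowerSeries (Matrix (Fin n) (Fin n) (R K n))) (d m : ℕ)
    (hd : ∀ k, d ≤ k → PowerSeries.coeff k P = 0) (hm : ∀ k, m ≤ k → PowerSeries.coeff k H = 0)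
    (hPH : P * H = 1) :
    (∑ k ∈ range d, PowerSeries.coeff k P) * (∑ k ∈ range m, PowerSeries.coeff k H) = 1 := by
  set p : Polynomial (Matrix (Fin n) (Fin n) (R K n)) :=
    ∑ k ∈ range d, Polynomial.monomial k (PowerSeries.coeff k P) with hp
  set h : Polynomial (Matrix (Fin n) (Fin n) (R K n)) :=
    ∑ k ∈ range m, Polynomial.monomial k (PowerSeries.coeff k H) with hh
  have hpc : ∀ k, p.coeff k = PowerSeries.coeff k P := by
    intro k
    rw [hp, Polynomial.finsetSum_coeff]
    simp only [Polynomial.coeff_monomial]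
    rw [Finset.sum_ite_eq' (range d) k]
    split_ifs with h1
    · rfl
    · rw [hd k (by simpa using h1)]
  have hhc : ∀ k, h.coeff k = PowerSeries.coeff k H := by
    intro k
    rw [hh, Polynomial.finsetSum_coeff]
    simp only [Polynomial.coeff_monomial]
    rw [Finset.sum_ite_eq' (range m) k]
    split_ifs with h1
    · rfl
    · rw [hm k (by simpa using h1)]
  have hph : p * h = 1 := by
    ext k : 1
    rw [Polynomial.coeff_mul]
    simp only [hpc, hhc]
    rw [← PowerSeries.coeff_mul, hPH, PowerSeries.coeff_one, Polynomial.coeff_one]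
  set ev : Polynomial (Matrix (Fin n) (Fin n) (R K n)) →+* Matrix (Fin n) (Fin n) (R K n) :=
    Polynomial.eval₂RingHom' (RingHom.id _) 1 (fun a => Commute.one_right _) with hev
  have hmon : ∀ k a, ev (Polynomial.monomial k a) = a := by
    intro k a
    rw [hev, Polynomial.eval₂RingHom'_apply, Polynomial.eval₂_monomial]
    simp
  have := congrArg ev hph
  rw [map_mul, map_one, hp, hh, map_sum, map_sum] at this
  simpa only [hmon] using this

theorem BB (hK : S_KL) (hD : S_DET) : S_BB := by
  intro K _ n s hs J hJ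
  set Q : Matrix (Fin n) (Fin n) (R K n) →+* PowerSeries (Matrix (Fin n) (Fin n) (R K n)) :=
    (toPS (R K n) (Fin n)).comp (RingHom.mapMatrix (s : R K n →+* Polynomial (R K n))) with hQ
  have hQc : ∀ M k i j, (PowerSeries.coeff k (Q M)) i j = (s (M i j)).coeff k := by
    intro M k i j
    rw [hQ]
    exact toPS_coeff _ k i j
  -- `Q J` is a unit
  have hunit : IsUnit (Q J) := by
    rw [PowerSeries.isUnit_iff_constantCoeff]
    obtain ⟨J', hJ', hco⟩ := hJ 1
    have h1 : PowerSeries.constantCoeff (Q J) = PowerSeries.constantCoeff (Q J') := by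
      rw [← PowerSeries.coeff_zero_eq_constantCoeff_apply,
        ← PowerSeries.coeff_zero_eq_constantCoeff_apply]
      ext i j
      rw [hQc, hQc]
      exact hco i j 0 one_pos
    rw [h1]
    exact (hJ'.map Q).map PowerSeries.constantCoeff
  obtain ⟨U, hU⟩ := hunit
  have hPH : Q J * (↑U⁻¹ : PowerSeries (Matrix (Fin n) (Fin n) (R K n))) = 1 := by
    rw [← hU]; exact U.mul_inv
  have hHP : (↑U⁻¹ : PowerSeries (Matrix (Fin n) (Fin n) (R K n))) * Q J = 1 := by
    rw [← hU]; exact U.inv_mul
  set H : PowerSeries (Matrix (Fin n) (Fin n) (R K n)) := ↑U⁻¹ with hH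
  -- degree bound
  set d : ℕ := ∑ i, ∑ j, (s (J i j)).natDegree with hd
  have hdeg : ∀ i j, (s (J i j)).natDegree ≤ d := by
    intro i j
    calc (s (J i j)).natDegree ≤ ∑ j, (s (J i j)).natDegree :=
          Finset.single_le_sum (f := fun j => (s (J i j)).natDegree)
            (fun _ _ => Nat.zero_le _) (Finset.mem_univ j)
      _ ≤ d := Finset.single_le_sum (f := fun i => ∑ j, (s (J i j)).natDegree)
            (fun _ _ => Nat.zero_le _) (Finset.mem_univ i)
  have hdz : ∀ k, d < k → PowerSeries.coeff k (Q J) = 0 := by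
    intro k hk
    ext i j
    rw [hQc]
    exact Polynomial.coeff_eq_zero_of_natDegree_lt (lt_of_le_of_lt (hdeg i j) hk)
  obtain ⟨m, hm⟩ := BB_main hK (Q J) H d hdz hPH hHP (by
    intro E _ _ β _ _ ρ
    -- the matrix over `E[X]` is a unit
    have hW : IsUnit (Psi s ρ J) := by
      refine hD E (Fin n × β) (Psi s ρ J) fun m => ?_
      obtain ⟨J', hJ', hco⟩ := hJ m
      refine ⟨Psi s ρ J', hJ'.map (Psi s ρ), fun p q k hk => ?_⟩
      rw [Psi_coeff, Psi_coeff, hco _ _ k hk]
    obtain ⟨W, hW⟩ := hW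
    set V : Matrix (Fin n × β) (Fin n × β) (Polynomial E) := ↑W⁻¹ with hV
    have hVW : V * Psi s ρ J = 1 := by rw [← hW]; exact W.inv_mul
    have hcomp : PowerSeries.map (Phi ρ) (Q J) = toPS E (Fin n × β) (Psi s ρ J) := by
      ext k p q
      rw [PowerSeries.coeff_map, toPS_coeff, Psi_coeff, Phi_apply, hQc]
    have h1 : toPS E (Fin n × β) V * PowerSeries.map (Phi ρ) (Q J) = 1 := by
      rw [hcomp, ← map_mul, hVW, map_one]
    have h2 : PowerSeries.map (Phi ρ) (Q J) * PowerSeries.map (Phi ρ) H = 1 := by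
      rw [← map_mul, hPH, map_one]
    have h3 : toPS E (Fin n × β) V = PowerSeries.map (Phi ρ) H :=
      left_inv_eq_right_inv h1 h2
    refine ⟨(∑ p, ∑ q, (V p q).natDegree) + 1, fun k hk i j => ?_⟩
    ext b b'
    have h4 : (PowerSeries.coeff k (toPS E (Fin n × β) V)) (i, b) (j, b') =
        (PowerSeries.coeff k (PowerSeries.map (Phi ρ) H)) (i, b) (j, b') := by rw [h3]
    rw [toPS_coeff, PowerSeries.coeff_map, Phi_apply] at h4
    rw [Matrix.zero_apply, ← h4]
    refine Polynomial.coeff_eq_zero_of_natDegree_lt (lt_of_le_of_lt ?_ (Nat.lt_of_succ_le hk))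
    calc (V (i, b) (j, b')).natDegree ≤ ∑ q, (V (i, b) q).natDegree :=
          Finset.single_le_sum (f := fun q => (V (i, b) q).natDegree)
            (fun _ _ => Nat.zero_le _) (Finset.mem_univ (j, b'))
      _ ≤ ∑ p, ∑ q, (V p q).natDegree :=
          Finset.single_le_sum (f := fun p => ∑ q, (V p q).natDegree)
            (fun _ _ => Nat.zero_le _) (Finset.mem_univ (i, b)))
  have hsum : (∑ k ∈ range (d + 1), PowerSeries.coeff k (Q J)) = J := by
    ext i j
    rw [Matrix.sum_apply]
    simp only [hQc]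
    conv_rhs => rw [← hs (J i j)]
    rw [Polynomial.sum_over_range' _ (fun _ => rfl) (d + 1) (Nat.lt_succ_of_le (hdeg i j))]
  have e1 := BB_sum (Q J) H (d + 1) m (fun k hk => hdz k hk) hm hPH
  have e2 := BB_sum H (Q J) m (d + 1) hm (fun k hk => hdz k hk) hHP
  rw [hsum] at e1 e2
  exact ⟨⟨J, _, e1, e2⟩, rfl⟩

end

end Pool.Agent.R983.GE
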